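import Mathlib

set_option autoImplicit false

open Filter Topology Finset

namespace Pool.Agent.Helper480.E25

/-- number of `t < P` in a class mod `L`, when `L ∣ P` -/
theorem card_class (P L N : ℕ) (hL : 0 < L) (h : L ∣ P) :
    ((range P).filter (fun t => t ≡ N [MOD L])).card = P / L := by
  have h1 := Nat.count_modEq_card P hL N
  rw [Nat.count_eq_card_filter_range] at h1
  rw [h1]
  have h2 : P % L = 0 := Nat.mod_eq_zero_of_dvd h
  rw [h2]
  simp

/-- number of integers in `[1,X]` in a class mod `g` -/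
theorem card_class_Icc (X g N : ℕ) (hg : 0 < g) :
    ((Icc 1 X).filter (fun t => t ≡ N [MOD g])).card * g ≤ X + g := by
  have h0 : ((Icc 1 X).filter (fun t => t ≡ N [MOD g])).card ≤ X / g + 1 := by
    have h2 : ((Icc 1 X).filter (fun t => t ≡ N [MOD g])) =
        (Ioc 0 X).filter (fun t => t ≡ N [MOD g]) := by
      congr 1
    rw [h2]
    have h3 := Nat.Ioc_filter_modEq_card 0 X hg N
    have h4 : (((Ioc 0 X).filter (fun t => t ≡ N [MOD g])).card : ℤ) ≤ X / g + 1 := by
      rw [h3]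
      apply max_le
      · have e1 : ⌊((X : ℚ) - N) / g⌋ ≤ (X : ℤ) / g + ⌊(0 - (N : ℚ)) / g⌋ + 1 := by
          have e2 : ((X : ℚ) - N) / g = (X : ℚ) / g + (0 - (N : ℚ)) / g := by ring
          rw [e2]
          have e3 := Int.le_floor_add_floor ((X : ℚ) / g) ((0 - (N : ℚ)) / g)
          have e4 : ⌊(X : ℚ) / g⌋ = (X : ℤ) / g := by
            have := Rat.floor_intCast_div_natCast (X : ℤ) g
            push_cast at this
            exact this
          rw [e4] at e3
          linarith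
        push_cast at e1 ⊢
        linarith
      · positivity
    exact_mod_cast h4
  calc _ ≤ (X / g + 1) * g := Nat.mul_le_mul_right _ h0
    _ = X / g * g + g := by ring
    _ ≤ X + g := by
      have := Nat.div_mul_le_self X g
      omega

theorem modEq_lcm {a b m n : ℕ} (h1 : a ≡ b [MOD m]) (h2 : a ≡ b [MOD n]) :
    a ≡ b [MOD Nat.lcm m n] := by
  rw [Nat.modEq_iff_dvd] at h1 h2 ⊢
  have := Int.coe_lcm_dvd h1 h2
  simpa using this

theorem card_both (P L L' N N' : ℕ) (hL : 0 < L) (hL' : 0 < L') (h : L ∣ P) (h' : L' ∣ P) :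
    L * L' * ((range P).filter (fun t => t ≡ N [MOD L] ∧ t ≡ N' [MOD L'])).card ≤
      P * (if N ≡ N' [MOD Nat.gcd L L'] then Nat.gcd L L' else 0) := by
  by_cases hne : ((range P).filter (fun t => t ≡ N [MOD L] ∧ t ≡ N' [MOD L'])).Nonempty
  · obtain ⟨t0, ht0⟩ := hne
    rw [mem_filter] at ht0
    obtain ⟨-, h1, h2⟩ := ht0
    have h3 : N ≡ N' [MOD Nat.gcd L L'] :=
      ((h1.of_dvd (Nat.gcd_dvd_left L L')).symm).trans (h2.of_dvd (Nat.gcd_dvd_right L L'))
    rw [if_pos h3]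
    have h4 : ((range P).filter (fun t => t ≡ N [MOD L] ∧ t ≡ N' [MOD L'])).card ≤
        P / Nat.lcm L L' := by
      rw [← card_class P (Nat.lcm L L') t0 (Nat.lcm_pos hL hL') (Nat.lcm_dvd h h')]
      apply card_le_card
      intro t ht
      rw [mem_filter] at ht ⊢
      exact ⟨ht.1, modEq_lcm (ht.2.1.trans h1.symm) (ht.2.2.trans h2.symm)⟩
    calc L * L' * ((range P).filter (fun t => t ≡ N [MOD L] ∧ t ≡ N' [MOD L'])).card
        ≤ L * L' * (P / Nat.lcm L L') := Nat.mul_le_mul_left _ h4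
      _ = Nat.gcd L L' * (Nat.lcm L L' * (P / Nat.lcm L L')) := by
        rw [← Nat.gcd_mul_lcm L L', mul_assoc]
      _ = P * Nat.gcd L L' := by
        rw [Nat.mul_div_cancel' (Nat.lcm_dvd h h'), mul_comm]
  · rw [not_nonempty_iff_eq_empty] at hne
    rw [hne]
    simp

/-- second moment inequality -/
theorem second_moment (P : ℕ) (hP : 0 < P) (S : Finset ℕ) (L : ℕ → ℕ) (hL : ∀ N ∈ S, 0 < L N)
    (hLP : ∀ N ∈ S, L N ∣ P) (V : Finset ℕ)
    (hV : ∀ N ∈ S, ∀ t < P, t ≡ N [MOD L N] → t ∈ V) :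
    P * S.card ^ 2 ≤ V.card * ∑ N ∈ S, ∑ N' ∈ S,
      (if N ≡ N' [MOD Nat.gcd (L N) (L N')] then Nat.gcd (L N) (L N') else 0) := by
  classical
  set F : ℕ → ℕ := fun t => ∑ N ∈ S, if t ≡ N [MOD L N] then L N else 0 with hF
  have h1 : ∑ t ∈ range P, F t = P * S.card := by
    rw [hF, sum_comm]
    have : ∀ N ∈ S, ∑ t ∈ range P, (if t ≡ N [MOD L N] then L N else 0) = P := by
      intro N hN
      rw [← sum_filter, sum_const, card_class P (L N) N (hL N hN) (hLP N hN), smul_eq_mul]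
      exact Nat.div_mul_cancel (hLP N hN)
    rw [sum_congr rfl this, sum_const, smul_eq_mul, mul_comm]
  have h2 : ∑ t ∈ range P, F t = ∑ t ∈ (range P).filter (· ∈ V), F t := by
    rw [sum_filter]
    apply sum_congr rfl
    intro t ht
    split_ifs with h
    · rfl
    · rw [hF]
      apply sum_eq_zero
      intro N hN
      rw [if_neg]
      intro h3
      exact h (hV N hN t (mem_range.mp ht) h3)
  have h3 : (∑ t ∈ (range P).filter (· ∈ V), F t) ^ 2 ≤
      ((range P).filter (· ∈ V)).card * ∑ t ∈ (range P).filter (· ∈ V), F t ^ 2 :=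
    sq_sum_le_card_mul_sum_sq
  have h4 : ((range P).filter (· ∈ V)).card ≤ V.card := by
    apply card_le_card
    intro t ht
    exact (mem_filter.mp ht).2
  have h5 : ∑ t ∈ (range P).filter (· ∈ V), F t ^ 2 ≤ ∑ t ∈ range P, F t ^ 2 :=
    sum_le_sum_of_subset (filter_subset _ _)
  have h6 : ∑ t ∈ range P, F t ^ 2 ≤ P * ∑ N ∈ S, ∑ N' ∈ S,
      (if N ≡ N' [MOD Nat.gcd (L N) (L N')] then Nat.gcd (L N) (L N') else 0) := by
    have e1 : ∀ t, F t ^ 2 = ∑ N ∈ S, ∑ N' ∈ S,
        (if t ≡ N [MOD L N] ∧ t ≡ N' [MOD L N'] then L N * L N' else 0) := by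
      intro t
      rw [hF, sq, sum_mul_sum]
      apply sum_congr rfl
      intro N _
      apply sum_congr rfl
      intro N' _
      by_cases ha : t ≡ N [MOD L N] <;> by_cases hb : t ≡ N' [MOD L N'] <;> simp [ha, hb]
    simp_rw [e1]
    rw [sum_comm, mul_sum]
    apply sum_le_sum
    intro N hN
    rw [sum_comm, mul_sum]
    apply sum_le_sum
    intro N' hN'
    rw [← sum_filter, sum_const, smul_eq_mul, mul_comm]
    exact card_both P (L N) (L N') N N' (hL N hN) (hL N' hN') (hLP N hN) (hLP N' hN')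
  rw [← h2, h1] at h3
  have h7 : (P * S.card) ^ 2 ≤ V.card * (P * ∑ N ∈ S, ∑ N' ∈ S,
      (if N ≡ N' [MOD Nat.gcd (L N) (L N')] then Nat.gcd (L N) (L N') else 0)) :=
    h3.trans (Nat.mul_le_mul h4 (h5.trans h6))
  have h8 : P * (P * S.card ^ 2) ≤ P * (V.card * ∑ N ∈ S, ∑ N' ∈ S,
      (if N ≡ N' [MOD Nat.gcd (L N) (L N')] then Nat.gcd (L N) (L N') else 0)) := by
    calc P * (P * S.card ^ 2) = (P * S.card) ^ 2 := by ring
      _ ≤ _ := h7
      _ = _ := by ring
  exact Nat.le_of_mul_le_mul_left h8 hP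

end Pool.Agent.Helper480.E25
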