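import Pool.Agent.H49.G.R_seed8.Helper480.E25.B

set_option autoImplicit false

open Filter Topology Finset

namespace Pool.Agent.Helper480.E25

open Classical in
/-- number of members of `U` in `[0,P)` -/
noncomputable def cnt (U : Set ℕ) (P : ℕ) : ℕ := ((range P).filter (fun t => t ∈ U)).card

open Classical in
/-- number of members of `U` in `[1,X]` -/
noncomputable def cnt1 (U : Set ℕ) (X : ℕ) : ℕ := ((Icc 1 X).filter (fun t => t ∈ U)).card

/-- `U` is `Q`-periodic -/
def Per (U : Set ℕ) (Q : ℕ) : Prop := ∀ t, t + Q ∈ U ↔ t ∈ U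

theorem cnt_mono {U V : Set ℕ} (h : U ⊆ V) (P : ℕ) : cnt U P ≤ cnt V P := by
  classical
  unfold cnt
  apply card_le_card
  intro t ht
  rw [mem_filter] at ht ⊢
  exact ⟨ht.1, h ht.2⟩

theorem cnt1_mono {U V : Set ℕ} (h : U ⊆ V) (P : ℕ) : cnt1 U P ≤ cnt1 V P := by
  classical
  unfold cnt1
  apply card_le_card
  intro t ht
  rw [mem_filter] at ht ⊢
  exact ⟨ht.1, h ht.2⟩

theorem cnt_le (U : Set ℕ) (P : ℕ) : cnt U P ≤ P := by
  classical
  unfold cnt
  exact (card_filter_le _ _).trans (by simp)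

theorem cnt1_le (U : Set ℕ) (P : ℕ) : cnt1 U P ≤ P := by
  classical
  unfold cnt1
  exact (card_filter_le _ _).trans (by simp)

theorem cnt1_eq (U : Set ℕ) (X : ℕ) [DecidablePred (· ∈ U)] :
    cnt1 U X = ((Icc 1 X).filter (fun t => t ∈ U)).card := by
  unfold cnt1
  congr

theorem cnt1_union (U V : Set ℕ) (X : ℕ) : cnt1 (U ∪ V) X ≤ cnt1 U X + cnt1 V X := by
  classical
  rw [cnt1_eq, cnt1_eq, cnt1_eq]
  refine (card_le_card ?_).trans (card_union_le _ _)
  intro t ht
  simp only [mem_filter, mem_union, Set.mem_union] at ht ⊢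
  tauto

theorem cnt_eq_count (U : Set ℕ) [DecidablePred (· ∈ U)] (P : ℕ) : cnt U P = Nat.count (· ∈ U) P := by
  rw [Nat.count_eq_card_filter_range]
  unfold cnt
  congr

theorem cnt_mul {U : Set ℕ} {Q : ℕ} (h : Per U Q) (k : ℕ) : cnt U (k * Q) = k * cnt U Q := by
  classical
  have hk : ∀ k t, t + k * Q ∈ U ↔ t ∈ U := by
    intro k
    induction k with
    | zero => intro t; simp
    | succ k ih =>
      intro t
      have : t + (k + 1) * Q = (t + k * Q) + Q := by ring
      rw [this, h, ih]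
  induction k with
  | zero => simp [cnt]
  | succ k ih =>
    rw [cnt_eq_count, cnt_eq_count] at *
    have e : (k + 1) * Q = k * Q + Q := by ring
    rw [e, Nat.count_add, ih]
    have e2 : Nat.count (fun j => k * Q + j ∈ U) Q = Nat.count (· ∈ U) Q := by
      congr 1
      funext j
      rw [add_comm]
      exact propext (hk k j)
    rw [e2]
    ring

theorem per_mul {U : Set ℕ} {Q : ℕ} (h : Per U Q) (k : ℕ) : Per U (k * Q) := by
  induction k with
  | zero => intro t; simp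
  | succ k ih =>
    intro t
    have : t + (k + 1) * Q = (t + k * Q) + Q := by ring
    rw [this, h, ih]

theorem per_dvd {U : Set ℕ} {Q P : ℕ} (h : Per U Q) (hd : Q ∣ P) : Per U P := by
  obtain ⟨k, rfl⟩ := hd
  rw [mul_comm]
  exact per_mul h k

/-- the density of a periodic set -/
noncomputable def den (U : Set ℕ) (Q : ℕ) : ℝ := (cnt U Q : ℝ) / Q

theorem den_dvd {U : Set ℕ} {Q P : ℕ} (hP : 0 < P) (h : Per U Q) (hd : Q ∣ P) : den U P = den U Q := by
  obtain ⟨k, rfl⟩ := hd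
  have hQ : 0 < Q := Nat.pos_of_mul_pos_right hP
  have hk : 0 < k := Nat.pos_of_mul_pos_left hP
  unfold den
  rw [mul_comm Q k, cnt_mul h k]
  push_cast
  have : (k : ℝ) ≠ 0 := by positivity
  have : (Q : ℝ) ≠ 0 := by positivity
  field_simp

theorem den_le_one (U : Set ℕ) (Q : ℕ) : den U Q ≤ 1 := by
  unfold den
  apply div_le_one_of_le₀
  · exact_mod_cast cnt_le U Q
  · positivity

theorem den_nonneg (U : Set ℕ) (Q : ℕ) : 0 ≤ den U Q := by
  unfold den; positivity

theorem den_mono {U V : Set ℕ} (h : U ⊆ V) (Q : ℕ) : den U Q ≤ den V Q := by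
  unfold den
  gcongr
  exact cnt_mono h Q

theorem cnt1_upper {U : Set ℕ} {Q : ℕ} (hQ : 0 < Q) (h : Per U Q) (X : ℕ) :
    (cnt1 U X : ℝ) ≤ den U Q * X + Q := by
  classical
  have h1 : cnt1 U X ≤ cnt U ((X / Q + 1) * Q) := by
    unfold cnt1 cnt
    apply card_le_card
    intro t ht
    rw [mem_filter, mem_Icc] at ht
    rw [mem_filter, mem_range]
    refine ⟨lt_of_le_of_lt ht.1.2 ?_, ht.2⟩
    have := Nat.lt_div_mul_add hQ (a := X)
    calc X < X / Q * Q + Q := this
      _ = (X / Q + 1) * Q := by ring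
  rw [cnt_mul h] at h1
  have h2 : ((X / Q : ℕ) : ℝ) ≤ (X : ℝ) / Q := Nat.cast_div_le
  have h3 : (cnt U Q : ℝ) = den U Q * Q := by
    unfold den
    have : (Q : ℝ) ≠ 0 := by positivity
    field_simp
  have h4 : (cnt1 U X : ℝ) ≤ (((X / Q : ℕ) : ℝ) + 1) * (cnt U Q : ℝ) := by exact_mod_cast h1
  have h5 := den_le_one U Q
  have h6 := den_nonneg U Q
  have hQ' : (0 : ℝ) < Q := by exact_mod_cast hQ
  calc (cnt1 U X : ℝ) ≤ (((X / Q : ℕ) : ℝ) + 1) * (cnt U Q : ℝ) := h4
    _ ≤ ((X : ℝ) / Q + 1) * (den U Q * Q) := by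
      rw [h3]
      gcongr
    _ = den U Q * X + den U Q * Q := by field_simp
    _ ≤ den U Q * X + 1 * Q := by gcongr
    _ = _ := by ring

theorem cnt1_lower {U : Set ℕ} {Q : ℕ} (hQ : 0 < Q) (h : Per U Q) (X : ℕ) :
    den U Q * X - Q - 1 ≤ (cnt1 U X : ℝ) := by
  classical
  have h1 : cnt U (X / Q * Q) ≤ cnt1 U X + 1 := by
    unfold cnt1 cnt
    have : (range (X / Q * Q)).filter (fun t => t ∈ U) ⊆
        insert 0 ((Icc 1 X).filter (fun t => t ∈ U)) := by
      intro t ht
      rw [mem_filter, mem_range] at ht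
      rw [mem_insert, mem_filter, mem_Icc]
      rcases Nat.eq_zero_or_pos t with h0 | h0
      · exact Or.inl h0
      · right
        refine ⟨⟨h0, ?_⟩, ht.2⟩
        have := Nat.div_mul_le_self X Q
        omega
    exact (card_le_card this).trans (card_insert_le _ _)
  rw [cnt_mul h] at h1
  have h3 : (cnt U Q : ℝ) = den U Q * Q := by
    unfold den
    have : (Q : ℝ) ≠ 0 := by positivity
    field_simp
  have h4 : ((X / Q : ℕ) : ℝ) * (cnt U Q : ℝ) ≤ (cnt1 U X : ℝ) + 1 := by exact_mod_cast h1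
  have hQ' : (0 : ℝ) < Q := by exact_mod_cast hQ
  have h2 : (X : ℝ) ≤ (((X / Q : ℕ) : ℝ) + 1) * Q := by
    have := Nat.lt_div_mul_add hQ (a := X)
    have h7 : (X : ℝ) < ((X / Q : ℕ) : ℝ) * Q + Q := by exact_mod_cast this
    linarith
  have h5 := den_le_one U Q
  have h6 := den_nonneg U Q
  rw [h3] at h4
  nlinarith

end Pool.Agent.Helper480.E25
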