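import Pool.Agent.H49.G.R_seed8.Helper480.E25.C

set_option autoImplicit false

open Filter Topology Finset

namespace Pool.Agent.Helper480.E25

variable (n : ℕ → ℕ) (a : ℕ → ℤ)

/-- union of the classes with modulus at most `z` -/
def UU (z : ℕ) : Set ℕ := {t | ∃ i, n i ≤ z ∧ (t : ℤ) ≡ a i [ZMOD (n i : ℤ)]}

/-- the removed set -/
def KK : Set ℕ := {t | ∃ i, n i ≤ t ∧ (t : ℤ) ≡ a i [ZMOD (n i : ℤ)]}

variable {n} {a}

theorem UU_mono {z z' : ℕ} (h : z ≤ z') : UU n a z ⊆ UU n a z' := by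
  rintro t ⟨i, h1, h2⟩
  exact ⟨i, h1.trans h, h2⟩

theorem UU_per (hpos : ∀ i, 0 < n i) (z : ℕ) : Per (UU n a z) z.factorial := by
  have key : ∀ i, n i ≤ z → ∀ t : ℕ, (((t + z.factorial : ℕ) : ℤ) ≡ a i [ZMOD (n i : ℤ)] ↔
      (t : ℤ) ≡ a i [ZMOD (n i : ℤ)]) := by
    intro i hi t
    have h1 : (n i : ℤ) ∣ (z.factorial : ℤ) := by
      exact_mod_cast Nat.dvd_factorial (hpos i) hi
    have h2 : ((t + z.factorial : ℕ) : ℤ) ≡ (t : ℤ) [ZMOD (n i : ℤ)] := by
      rw [Int.modEq_iff_dvd]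
      have e : (t : ℤ) - ((t + z.factorial : ℕ) : ℤ) = -(z.factorial : ℤ) := by push_cast; ring
      rw [e]
      exact (dvd_neg).mpr h1
    exact ⟨fun h => h2.symm.trans h, fun h => h2.trans h⟩
  intro t
  constructor
  · rintro ⟨i, h1, h2⟩
    exact ⟨i, h1, (key i h1 t).1 h2⟩
  · rintro ⟨i, h1, h2⟩
    exact ⟨i, h1, (key i h1 t).2 h2⟩

theorem per_modEq {U : Set ℕ} {Q : ℕ} (h : Per U Q) {s t : ℕ} (hst : s ≡ t [MOD Q]) :
    s ∈ U ↔ t ∈ U := by
  have key : ∀ s t : ℕ, s ≤ t → s ≡ t [MOD Q] → (s ∈ U ↔ t ∈ U) := by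
    intro s t hle hst
    obtain ⟨k, hk⟩ := (Nat.modEq_iff_dvd' hle).mp hst
    have : t = s + k * Q := by
      rw [mul_comm] at hk
      omega
    rw [this]
    exact (per_mul h k s).symm
  rcases le_total s t with h1 | h1
  · exact key s t h1 hst
  · exact (key t s h1 hst.symm).symm

/-- density of the union of the classes with modulus at most `z` -/
noncomputable def DD (n : ℕ → ℕ) (a : ℕ → ℤ) (z : ℕ) : ℝ := den (UU n a z) z.factorial

theorem DD_mono (hpos : ∀ i, 0 < n i) : Monotone (DD n a) := by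
  intro z z' h
  unfold DD
  rw [← den_dvd (Nat.factorial_pos z') (UU_per hpos z) (Nat.factorial_dvd_factorial h)]
  exact den_mono (UU_mono h) _

theorem DD_le_one (z : ℕ) : DD n a z ≤ 1 := den_le_one _ _

/-- the limit density -/
noncomputable def DL (n : ℕ → ℕ) (a : ℕ → ℤ) : ℝ := ⨆ z, DD n a z

theorem DD_tendsto (hpos : ∀ i, 0 < n i) : Tendsto (DD n a) atTop (𝓝 (DL n a)) :=
  tendsto_atTop_ciSup (DD_mono hpos) ⟨1, by rintro x ⟨z, rfl⟩; exact DD_le_one z⟩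

theorem DD_le_DL (z : ℕ) : DD n a z ≤ DL n a :=
  le_ciSup (f := DD n a) ⟨1, by rintro x ⟨z, rfl⟩; exact DD_le_one z⟩ z

/-- the number of elements of `[1,X]` in a class -/
theorem card_cls (X i : ℕ) (hpos : 0 < n i) :
    ((((Icc 1 X).filter (fun t : ℕ => (t : ℤ) ≡ a i [ZMOD (n i : ℤ)])).card : ℕ) : ℝ) * n i ≤
      X + n i := by
  obtain ⟨v, hv⟩ : ∃ v : ℕ, (v : ℤ) ≡ a i [ZMOD (n i : ℤ)] := by
    refine ⟨(a i % (n i : ℤ)).toNat, ?_⟩
    rw [Int.toNat_of_nonneg (Int.emod_nonneg _ (by exact_mod_cast hpos.ne'))]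
    exact Int.mod_modEq _ _
  have h1 : (Icc 1 X).filter (fun t : ℕ => (t : ℤ) ≡ a i [ZMOD (n i : ℤ)]) =
      (Icc 1 X).filter (fun t : ℕ => t ≡ v [MOD n i]) := by
    apply filter_congr
    intro t _
    rw [← Int.natCast_modEq_iff]
    exact ⟨fun h => h.trans hv.symm, fun h => h.trans hv⟩
  rw [h1]
  exact_mod_cast card_class_Icc X (n i) v hpos

theorem cnt1_le_of {U V : Set ℕ} {X : ℕ} (h : ∀ t, 1 ≤ t → t ≤ X → t ∈ U → t ∈ V) :
    cnt1 U X ≤ cnt1 V X := by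
  classical
  unfold cnt1
  apply card_le_card
  intro t ht
  rw [mem_filter, mem_Icc] at ht ⊢
  exact ⟨ht.1, h t ht.1.1 ht.1.2 ht.2⟩

open Classical in
/-- covering by classes -/
theorem cnt1_cover {X : ℕ} (I : Finset ℕ) (W : Set ℕ)
    (hW : ∀ t, 1 ≤ t → t ≤ X → t ∈ W → ∃ i ∈ I, (t : ℤ) ≡ a i [ZMOD (n i : ℤ)]) :
    cnt1 W X ≤ ∑ i ∈ I, ((Icc 1 X).filter (fun t : ℕ => (t : ℤ) ≡ a i [ZMOD (n i : ℤ)])).card := by
  unfold cnt1
  refine le_trans (card_le_card ?_) card_biUnion_le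
  intro t ht
  rw [mem_filter, mem_Icc] at ht
  obtain ⟨i, hi, h⟩ := hW t ht.1.1 ht.1.2 ht.2
  rw [mem_biUnion]
  exact ⟨i, hi, mem_filter.mpr ⟨mem_Icc.mpr ht.1, h⟩⟩

/-- elements covered by bad moduli -/
theorem bound_B (hn : StrictMono n) (hpos : ∀ i, 0 < n i) (B : Set ℕ) (z X : ℕ) (ε : ℝ)
    (hε : ∀ I : Finset ℕ, (∀ i ∈ I, i ∈ B ∧ z < n i) → ∑ i ∈ I, (1 : ℝ) / n i ≤ ε) :
    (cnt1 {t | ∃ i ∈ B, z < n i ∧ n i ≤ t ∧ (t : ℤ) ≡ a i [ZMOD (n i : ℤ)]} X : ℝ) ≤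
      2 * X * ε := by
  classical
  set I := (range (X + 1)).filter (fun i => i ∈ B ∧ z < n i ∧ n i ≤ X) with hI
  have h1 := cnt1_cover (n := n) (a := a) (X := X) I
    {t | ∃ i ∈ B, z < n i ∧ n i ≤ t ∧ (t : ℤ) ≡ a i [ZMOD (n i : ℤ)]} (by
      rintro t - htX ⟨i, hiB, hz, hit, hc⟩
      refine ⟨i, ?_, hc⟩
      rw [hI, mem_filter, mem_range]
      have : i ≤ n i := hn.le_apply
      exact ⟨by omega, hiB, hz, hit.trans htX⟩)
  have h2 : (cnt1 {t | ∃ i ∈ B, z < n i ∧ n i ≤ t ∧ (t : ℤ) ≡ a i [ZMOD (n i : ℤ)]} X : ℝ) ≤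
      ∑ i ∈ I, 2 * X * ((1 : ℝ) / n i) := by
    refine (Nat.cast_le.mpr h1).trans ?_
    push_cast
    apply sum_le_sum
    intro i hi
    rw [hI, mem_filter] at hi
    have h3 := card_cls (a := a) X i (hpos i)
    have h4 : (0 : ℝ) < n i := by exact_mod_cast hpos i
    have h5 : (n i : ℝ) ≤ X := by exact_mod_cast hi.2.2.2
    rw [mul_one_div, le_div_iff₀ h4]
    refine le_trans ?_ (h3.trans (by linarith))
    exact le_of_eq (by congr 3)
  refine h2.trans ?_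
  rw [← mul_sum]
  apply mul_le_mul_of_nonneg_left _ (by positivity)
  apply hε
  intro i hi
  rw [hI, mem_filter] at hi
  exact ⟨hi.2.1, hi.2.2.1⟩

/-- elements covered by large moduli -/
theorem bound_big (hn : StrictMono n) (hpos : ∀ i, 0 < n i) (B : Set ℕ) (Q X : ℕ) :
    cnt1 {t | ∃ i, i ∉ B ∧ X < n i * Q ∧ n i ≤ t ∧ (t : ℤ) ≡ a i [ZMOD (n i : ℤ)]} X ≤
      (Q + 1) * cnt1 {m | ∃ i, i ∉ B ∧ n i = m} X := by
  classical
  set I := (range (X + 1)).filter (fun i => i ∉ B ∧ X < n i * Q ∧ n i ≤ X) with hI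
  have h1 := cnt1_cover (n := n) (a := a) (X := X) I
    {t | ∃ i, i ∉ B ∧ X < n i * Q ∧ n i ≤ t ∧ (t : ℤ) ≡ a i [ZMOD (n i : ℤ)]} (by
      rintro t - htX ⟨i, hiB, hz, hit, hc⟩
      refine ⟨i, ?_, hc⟩
      rw [hI, mem_filter, mem_range]
      have : i ≤ n i := hn.le_apply
      exact ⟨by omega, hiB, hz, hit.trans htX⟩)
  refine h1.trans ?_
  have h2 : ∀ i ∈ I, ((Icc 1 X).filter (fun t : ℕ => (t : ℤ) ≡ a i [ZMOD (n i : ℤ)])).card ≤
      Q + 1 := by
    intro i hi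
    rw [hI, mem_filter] at hi
    have h3 := card_cls (a := a) X i (hpos i)
    have h4 : (((Icc 1 X).filter (fun t : ℕ => (t : ℤ) ≡ a i [ZMOD (n i : ℤ)])).card) * n i ≤
        X + n i := by exact_mod_cast h3
    have h5 : X + n i < n i * Q + n i := by omega
    have h6 : (((Icc 1 X).filter (fun t : ℕ => (t : ℤ) ≡ a i [ZMOD (n i : ℤ)])).card) * n i <
        (Q + 1) * n i := by
      calc _ ≤ X + n i := h4
        _ < n i * Q + n i := h5
        _ = (Q + 1) * n i := by ring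
    exact (Nat.lt_of_mul_lt_mul_right h6).le
  refine le_trans (sum_le_sum (g := fun _ => Q + 1) fun i hi => le_trans (le_of_eq (by congr)) (h2 i hi)) ?_
  rw [sum_const, smul_eq_mul, mul_comm]
  apply Nat.mul_le_mul_left
  unfold cnt1
  apply card_le_card_of_injOn n
  · intro i hi
    have hi' : i ∈ I := hi
    rw [hI, mem_filter] at hi'
    rw [mem_coe, mem_filter, mem_Icc]
    exact ⟨⟨hpos i, hi'.2.2.2⟩, i, hi'.2.1, rfl⟩
  · intro i _ j _ hij
    exact hn.injective hij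

/-- elements covered by small good moduli -/
theorem bound_good (hpos : ∀ i, 0 < n i) (B : Set ℕ) (T : ℕ) (r : ℕ → ℕ)
    (hT : ∀ i, i ∉ B → ∀ F : Finset ℕ, (∀ j ∈ F, j ∉ B ∧ r i ≤ r j) →
      (F.image (fun j => Nat.gcd (n i) (n j))).card ≤ T) (z X : ℕ) (hzX : z ≤ X) :
    (cnt1 {t | t ∉ UU n a z ∧ ∃ i, i ∉ B ∧ n i * z.factorial ≤ X ∧
      (t : ℤ) ≡ a i [ZMOD (n i : ℤ)]} X : ℝ) ≤ 4 * T * X * (DD n a X - DD n a z) := by
  classical
  set Q := z.factorial with hQ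
  have hQpos : 0 < Q := Nat.factorial_pos z
  set W : Set ℕ := {t | t ∉ UU n a z ∧ ∃ i, i ∉ B ∧ n i * Q ≤ X ∧
      (t : ℤ) ≡ a i [ZMOD (n i : ℤ)]} with hW
  have hex : ∀ t : ℕ, ∃ i, t ∈ W → i ∉ B ∧ n i * Q ≤ X ∧ (t : ℤ) ≡ a i [ZMOD (n i : ℤ)] := by
    intro t
    by_cases ht : t ∈ W
    · obtain ⟨-, i, h⟩ := ht
      exact ⟨i, fun _ => h⟩
    · exact ⟨0, fun h => absurd h ht⟩
  choose ι hι using hex
  set S := (Icc 1 X).filter (fun t => t ∈ W) with hS
  have hcS : cnt1 W X = S.card := by rw [cnt1_eq]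
  have hSW : ∀ N ∈ S, N ∈ W := fun N hN => (mem_filter.mp hN).2
  set P := X.factorial with hP
  set V := (range P).filter (fun t => t ∈ UU n a X ∧ t ∉ UU n a z) with hV
  have hnX : ∀ N ∈ S, n (ι N) ≤ X := by
    intro N hN
    have := (hι N (hSW N hN)).2.1
    exact le_trans (Nat.le_mul_of_pos_right _ hQpos) this
  have h1 := transfer X Q T P hQpos (Nat.factorial_pos X) S (filter_subset _ _)
    (fun N => n (ι N)) (fun N _ => hpos _) (fun N hN => (hι N (hSW N hN)).2.1)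
    (fun N => r (ι N)) (by
      intro N hN
      have h2 := hT (ι N) (hι N (hSW N hN)).1
        ((S.filter (fun N' => r (ι N) ≤ r (ι N'))).image ι) (by
          intro j hj
          obtain ⟨N', hN', rfl⟩ := mem_image.mp hj
          rw [mem_filter] at hN'
          exact ⟨(hι N' (hSW N' hN'.1)).1, hN'.2⟩)
      rw [image_image] at h2
      exact h2)
    (by
      intro N hN
      exact Nat.lcm_dvd (Nat.dvd_factorial (hpos _) (hnX N hN)) (Nat.factorial_dvd_factorial hzX))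
    V (by
      intro N hN t ht htN
      rw [hV, mem_filter, mem_range]
      refine ⟨ht, ⟨ι N, hnX N hN, ?_⟩, ?_⟩
      · have h3 : t ≡ N [MOD n (ι N)] := htN.of_dvd (Nat.dvd_lcm_left _ _)
        exact ((Int.natCast_modEq_iff).mpr h3).trans (hι N (hSW N hN)).2.2
      · have h3 : t ≡ N [MOD Q] := htN.of_dvd (Nat.dvd_lcm_right _ _)
        rw [per_modEq (UU_per hpos z) h3]
        exact (hSW N hN).1)
  have h2 : (V.card : ℝ) = (DD n a X - DD n a z) * P := by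
    have hPpos : (0 : ℝ) < P := by exact_mod_cast Nat.factorial_pos X
    have e1 : DD n a z = den (UU n a z) P := by
      unfold DD
      rw [den_dvd (Nat.factorial_pos X) (UU_per hpos z) (Nat.factorial_dvd_factorial hzX)]
    have e2 : cnt (UU n a X) P = V.card + cnt (UU n a z) P := by
      have e3 : V = (range P).filter (fun t => t ∈ UU n a X) \ (range P).filter (fun t => t ∈ UU n a z) := by
        ext t
        simp only [hV, Finset.mem_sdiff, Finset.mem_filter]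
        tauto
      have e4 : (range P).filter (fun t => t ∈ UU n a z) ⊆ (range P).filter (fun t => t ∈ UU n a X) := by
        intro t ht
        rw [mem_filter] at ht ⊢
        exact ⟨ht.1, UU_mono hzX ht.2⟩
      have e5 := card_sdiff_add_card_eq_card e4
      rw [← e3] at e5
      unfold cnt
      convert e5.symm using 2
    rw [e1]
    unfold DD den
    rw [← hP, e2]
    push_cast
    field_simp
    ring
  rw [hcS]
  have hPpos : (0 : ℝ) < P := by exact_mod_cast Nat.factorial_pos X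
  have h3 : (P : ℝ) * S.card ≤ 4 * T * X * V.card := by exact_mod_cast h1
  rw [h2] at h3
  have h4 : (P : ℝ) * S.card ≤ P * (4 * T * X * (DD n a X - DD n a z)) := by
    calc (P : ℝ) * S.card ≤ 4 * T * X * ((DD n a X - DD n a z) * P) := h3
      _ = _ := by ring
  exact le_of_mul_le_mul_left h4 hPpos

end Pool.Agent.Helper480.E25
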