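import Pool.Agent.H49.G.R_seed8.Helper480.E25.D

set_option autoImplicit false

open Filter Topology Finset

namespace Pool.Agent.Helper480.E25

variable {n : ℕ → ℕ} {a : ℕ → ℤ}

/-- the upper estimate -/
theorem upper (hn : StrictMono n) (hpos : ∀ i, 0 < n i) (B : Set ℕ) (T : ℕ) (r : ℕ → ℕ)
    (hT : ∀ i, i ∉ B → ∀ F : Finset ℕ, (∀ j ∈ F, j ∉ B ∧ r i ≤ r j) →
      (F.image (fun j => Nat.gcd (n i) (n j))).card ≤ T) (z X : ℕ) (hzX : z ≤ X) (ε : ℝ)
    (hε : ∀ I : Finset ℕ, (∀ i ∈ I, i ∈ B ∧ z < n i) → ∑ i ∈ I, (1 : ℝ) / n i ≤ ε) :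
    (cnt1 (KK n a) X : ℝ) ≤ (DD n a z * X + z.factorial) + (2 * X * ε +
      ((z.factorial + 1) * cnt1 {m | ∃ i, i ∉ B ∧ n i = m} X +
        4 * T * X * (DL n a - DD n a z))) := by
  have h1 : cnt1 (KK n a) X ≤ cnt1 (UU n a z ∪
      ({t | ∃ i ∈ B, z < n i ∧ n i ≤ t ∧ (t : ℤ) ≡ a i [ZMOD (n i : ℤ)]} ∪
      ({t | ∃ i, i ∉ B ∧ X < n i * z.factorial ∧ n i ≤ t ∧ (t : ℤ) ≡ a i [ZMOD (n i : ℤ)]} ∪
      {t | t ∉ UU n a z ∧ ∃ i, i ∉ B ∧ n i * z.factorial ≤ X ∧
      (t : ℤ) ≡ a i [ZMOD (n i : ℤ)]}))) X := by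
    apply cnt1_le_of
    rintro t - htX ⟨i, hit, hc⟩
    by_cases h2 : t ∈ UU n a z
    · exact Or.inl h2
    · right
      have hz : z < n i := by
        by_contra h3
        exact h2 ⟨i, not_lt.mp h3, hc⟩
      by_cases hB : i ∈ B
      · exact Or.inl ⟨i, hB, hz, hit, hc⟩
      · right
        rcases lt_or_ge X (n i * z.factorial) with h4 | h4
        · exact Or.inl ⟨i, hB, h4, hit, hc⟩
        · exact Or.inr ⟨h2, i, hB, h4, hc⟩
  have h2 := h1.trans ((cnt1_union _ _ _).trans (Nat.add_le_add_left ((cnt1_union _ _ _).trans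
    (Nat.add_le_add_left (cnt1_union _ _ _) _)) _))
  have h3 := cnt1_upper (Nat.factorial_pos z) (UU_per (a := a) hpos z) X
  have h4 := bound_B (a := a) hn hpos B z X ε hε
  have h5 := bound_big (a := a) hn hpos B z.factorial X
  have h6 := bound_good (a := a) hpos B T r hT z X hzX
  have h7 : (4 : ℝ) * T * X * (DD n a X - DD n a z) ≤ 4 * T * X * (DL n a - DD n a z) := by
    have := DD_le_DL (n := n) (a := a) X
    gcongr
  refine (Nat.cast_le.mpr h2).trans ?_
  push_cast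
  refine add_le_add h3 (add_le_add h4 (add_le_add ?_ (h6.trans h7)))
  exact_mod_cast h5

/-- the lower estimate -/
theorem lower (hpos : ∀ i, 0 < n i) (z X : ℕ) :
    DD n a z * X - z.factorial - 1 - z ≤ (cnt1 (KK n a) X : ℝ) := by
  classical
  have h1 := cnt1_lower (Nat.factorial_pos z) (UU_per (a := a) hpos z) X
  have h2 : cnt1 (UU n a z) X ≤ cnt1 (KK n a) X + z := by
    rw [cnt1_eq, cnt1_eq]
    have h3 : (Icc 1 X).filter (fun t => t ∈ UU n a z) ⊆
        (Icc 1 X).filter (fun t => t ∈ KK n a) ∪ Icc 1 z := by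
      intro t ht
      simp only [Finset.mem_filter, Finset.mem_union, Finset.mem_Icc] at ht ⊢
      rcases le_or_gt t z with h4 | h4
      · exact Or.inr ⟨ht.1.1, h4⟩
      · left
        obtain ⟨i, h5, h6⟩ := ht.2
        exact ⟨ht.1, i, h5.trans h4.le, h6⟩
    refine (card_le_card h3).trans ((card_union_le _ _).trans ?_)
    simp
  have h3 : (cnt1 (UU n a z) X : ℝ) ≤ cnt1 (KK n a) X + z := by exact_mod_cast h2
  unfold DD
  linarith

/-- natural density of the removed set -/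
theorem density_KK (hn : StrictMono n) (hpos : ∀ i, 0 < n i) (B : Set ℕ)
    (hB : Summable (fun i => Set.indicator B (fun i => (1 : ℝ) / n i) i)) (T : ℕ) (r : ℕ → ℕ)
    (hT : ∀ i, i ∉ B → ∀ F : Finset ℕ, (∀ j ∈ F, j ∉ B ∧ r i ≤ r j) →
      (F.image (fun j => Nat.gcd (n i) (n j))).card ≤ T)
    (hZ : Tendsto (fun X : ℕ => (cnt1 {m | ∃ i, i ∉ B ∧ n i = m} X : ℝ) / X) atTop (𝓝 0)) :
    Tendsto (fun X : ℕ => (cnt1 (KK n a) X : ℝ) / X) atTop (𝓝 (DL n a)) := by
  classical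
  rw [Metric.tendsto_atTop']
  intro ε hε
  -- choose z
  set ε₁ : ℝ := ε / (4 * (4 * T + 3)) with hε₁
  have hε₁pos : 0 < ε₁ := by positivity
  obtain ⟨F, hF⟩ := (summable_iff_vanishing_norm.mp hB) ε₁ hε₁pos
  obtain ⟨z0, hz0⟩ := (Metric.tendsto_atTop.mp (DD_tendsto (a := a) hpos)) ε₁ hε₁pos
  set z := max z0 (F.sup n) with hz
  have hDz : DL n a - DD n a z ≤ ε₁ := by
    have := hz0 z (le_max_left _ _)
    rw [Real.dist_eq, abs_lt] at this
    linarith
  have htail : ∀ I : Finset ℕ, (∀ i ∈ I, i ∈ B ∧ z < n i) → ∑ i ∈ I, (1 : ℝ) / n i ≤ ε₁ := by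
    intro I hI
    have hd : Disjoint I F := by
      rw [Finset.disjoint_left]
      intro i hi hiF
      have h1 : n i ≤ F.sup n := Finset.le_sup hiF
      have h2 := (hI i hi).2
      have h3 : F.sup n ≤ z := le_max_right _ _
      omega
    have h4 := hF I hd
    have h5 : ∑ i ∈ I, Set.indicator B (fun i => (1 : ℝ) / n i) i = ∑ i ∈ I, (1 : ℝ) / n i := by
      apply sum_congr rfl
      intro i hi
      rw [Set.indicator_of_mem (hI i hi).1]
    rw [h5] at h4
    exact (le_abs_self _).trans h4.le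
  have hDzL := DD_le_DL (n := n) (a := a) z
  -- small terms
  have t1 : Tendsto (fun X : ℕ => (z.factorial : ℝ) / X + (z.factorial + 1) *
      ((cnt1 {m | ∃ i, i ∉ B ∧ n i = m} X : ℝ) / X)) atTop (𝓝 0) := by
    have h1 : Tendsto (fun X : ℕ => (z.factorial : ℝ) / X) atTop (𝓝 0) :=
      tendsto_const_div_atTop_nhds_zero_nat _
    have h2 := hZ.const_mul ((z.factorial : ℝ) + 1)
    rw [mul_zero] at h2
    simpa using h1.add h2
  have t2 : Tendsto (fun X : ℕ => ((z.factorial : ℝ) + 1 + z) / X) atTop (𝓝 0) :=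
    tendsto_const_div_atTop_nhds_zero_nat _
  have e1 := (tendsto_order.mp t1).2 (ε / 4) (by positivity)
  have e2 := (tendsto_order.mp t2).2 (ε / 4) (by positivity)
  have e3 := e1.and (e2.and (eventually_ge_atTop (z + 1)))
  obtain ⟨X0, hX0⟩ := eventually_atTop.mp e3
  refine ⟨X0, fun X hX => ?_⟩
  obtain ⟨f1, f2, f3⟩ := hX0 X hX.le
  have hXpos : (0 : ℝ) < X := by
    have : 0 < X := by omega
    exact_mod_cast this
  have u1 := upper (a := a) hn hpos B T r hT z X (by omega) ε₁ htail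
  have l1 := lower (n := n) (a := a) hpos z X
  rw [Real.dist_eq, abs_lt]
  have hεeq : ε₁ * (4 * (4 * T + 3)) = ε := by
    rw [hε₁]; field_simp
  constructor
  · have : DL n a - ε < (cnt1 (KK n a) X : ℝ) / X := by
      rw [lt_div_iff₀ hXpos]
      rw [div_lt_iff₀ hXpos] at f2
      have g1 : ε₁ ≤ ε / 4 := by
        have : (0 : ℝ) ≤ T := Nat.cast_nonneg _
        nlinarith
      nlinarith
    linarith
  · have : (cnt1 (KK n a) X : ℝ) / X < DL n a + ε := by
      rw [div_lt_iff₀ hXpos]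
      have f1' : (z.factorial : ℝ) + (z.factorial + 1) *
          (cnt1 {m | ∃ i, i ∉ B ∧ n i = m} X : ℝ) < ε / 4 * X := by
        have : (z.factorial : ℝ) / X + (z.factorial + 1) *
          ((cnt1 {m | ∃ i, i ∉ B ∧ n i = m} X : ℝ) / X) = ((z.factorial : ℝ) + (z.factorial + 1) *
          (cnt1 {m | ∃ i, i ∉ B ∧ n i = m} X : ℝ)) / X := by ring
        rw [this, div_lt_iff₀ hXpos] at f1
        exact f1
      have g2 : 4 * (T : ℝ) * X * (DL n a - DD n a z) ≤ 4 * T * X * ε₁ := by gcongr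
      have g3 : DD n a z * X ≤ DL n a * X := by gcongr
      have g4 : (2 * X * ε₁ + 4 * T * X * ε₁ : ℝ) ≤ ε / 4 * X * 3 := by
        have : ε / 4 * X * 3 = ε₁ * (4 * T + 3) * X * 3 := by rw [← hεeq]; ring
        rw [this]
        have h0 : (0 : ℝ) ≤ T := Nat.cast_nonneg _
        have h1 : 0 ≤ ε₁ * X := by positivity
        have h2 : 0 ≤ ε₁ * X * T := by positivity
        nlinarith
      nlinarith
    linarith

end Pool.Agent.Helper480.E25
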